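import Mathlib
import Pool.Agent.W994.ST.Stm

/-!
# ST-SAV: a deterministic program of Savitch's type which reads only reachable vertices
-/

set_option autoImplicit false

namespace Pool.Agent.W565.ST.Sav

open Finset
open Pool.Agent.W997.TS (DBP)
open Pool.Agent.W994.ST

/-- programs with an arbitrary type of outputs -/
structure Prog (k : ℕ) (O : Type) where
  /-- the states -/
  State : Type
  [ft : Fintype State]
  /-- the start state -/
  start : State
  /-- the variable read -/
  query : State → Fin k × Bool
  /-- the next state or the output -/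
  next : State → Fin k → State ⊕ O

attribute [instance] Prog.ft

variable {k : ℕ}

/-- `P` started in `σ` ends with output `o` and reads only variables of `R` -/
inductive Ends {O : Type} (P : Prog k O) (x : Input k) (R : Set (Fin k × Bool)) : P.State → O → Prop
  | fin {σ : P.State} {o : O} : P.query σ ∈ R → P.next σ (x (P.query σ)) = Sum.inr o → Ends P x R σ o
  | step {σ σ' : P.State} {o : O} : P.query σ ∈ R → P.next σ (x (P.query σ)) = Sum.inl σ' →
      Ends P x R σ' o → Ends P x R σ o

/-- the loop combinator -/
def loop {A O O' : Type} [Fintype A] (P : A → Prog k O) (κ : A → O → A ⊕ O') (a0 : A) :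
    Prog k O' where
  State := Σ a, (P a).State
  start := ⟨a0, (P a0).start⟩
  query σ := (P σ.1).query σ.2
  next σ c := match (P σ.1).next σ.2 c with
    | Sum.inl σ' => Sum.inl ⟨σ.1, σ'⟩
    | Sum.inr o => match κ σ.1 o with
      | Sum.inl a' => Sum.inl ⟨a', (P a').start⟩
      | Sum.inr o' => Sum.inr o'

theorem loop_fin {A O O' : Type} [Fintype A] (P : A → Prog k O) (κ : A → O → A ⊕ O') (a0 : A)
    (x : Input k) (R : Set (Fin k × Bool)) {a : A} {o : O} {o' : O'} {σ : (P a).State}
    (h : Ends (P a) x R σ o) (hκ : κ a o = Sum.inr o') :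
    Ends (loop P κ a0) x R (⟨a, σ⟩ : Σ a, (P a).State) o' := by
  induction h with
  | fin h1 h2 =>
    refine Ends.fin h1 ?_
    simp only [loop, h2, hκ]
  | step h1 h2 _ ih =>
    refine Ends.step (P := loop P κ a0) (σ' := (⟨a, _⟩ : Σ a, (P a).State)) h1 ?_ (ih hκ)
    simp only [loop, h2]

theorem loop_step {A O O' : Type} [Fintype A] (P : A → Prog k O) (κ : A → O → A ⊕ O') (a0 : A)
    (x : Input k) (R : Set (Fin k × Bool)) {a a' : A} {o : O} {o' : O'} {σ : (P a).State}
    (h : Ends (P a) x R σ o) (hκ : κ a o = Sum.inl a')
    (h' : Ends (loop P κ a0) x R (⟨a', (P a').start⟩ : Σ a, (P a).State) o') :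
    Ends (loop P κ a0) x R (⟨a, σ⟩ : Σ a, (P a).State) o' := by
  induction h with
  | fin h1 h2 =>
    refine Ends.step (P := loop P κ a0) (σ' := (⟨a', (P a').start⟩ : Σ a, (P a).State)) h1 ?_ h'
    simp only [loop, h2, hκ]
  | step h1 h2 _ ih =>
    refine Ends.step (P := loop P κ a0) (σ' := (⟨a, _⟩ : Σ a, (P a).State)) h1 ?_ (ih hκ)
    simp only [loop, h2]

/-- contribution of a vertex to the search for the next number -/
def fv (v : Fin (k + 1)) (w : Fin k) : Fin (k + 1) := if v ≤ w.castSucc then w.castSucc else ⊤

/-- the ball -/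
def Bl (x : Input k) : ℕ → Fin k → Finset (Fin k)
  | 0, u => {u}
  | n + 1, u => Bl x n u ∪ (Bl x n u).image (fun w => x (w, false)) ∪
      (Bl x n u).image (fun w => x (w, true))

/-- the next number in the ball -/
def nxv (x : Input k) (i : ℕ) (u : Fin k) (v : Fin (k + 1)) : Fin (k + 1) :=
  (Bl x (2 ^ i) u).inf (fv v)

theorem Bl_add (x : Input k) (m n : ℕ) (u : Fin k) :
    Bl x (m + n) u = (Bl x m u).biUnion (fun w => Bl x n w) := by
  induction n with
  | zero =>
    simp [Bl]
  | succ n ih =>
    have h1 : Bl x (m + (n + 1)) u = Bl x (m + n) u ∪ (Bl x (m + n) u).image (fun w => x (w, false)) ∪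
      (Bl x (m + n) u).image (fun w => x (w, true)) := rfl
    rw [h1, ih]
    ext v
    simp only [Bl, mem_union, mem_image, mem_biUnion]
    constructor
    · rintro ((⟨a, h2, h3⟩ | ⟨b, ⟨a, h2, h3⟩, h4⟩) | ⟨b, ⟨a, h2, h3⟩, h4⟩)
      · exact ⟨a, h2, Or.inl (Or.inl h3)⟩
      · exact ⟨a, h2, Or.inl (Or.inr ⟨b, h3, h4⟩)⟩
      · exact ⟨a, h2, Or.inr ⟨b, h3, h4⟩⟩
    · rintro ⟨a, h2, ((h3 | ⟨b, h3, h4⟩) | ⟨b, h3, h4⟩)⟩
      · exact Or.inl (Or.inl ⟨a, h2, h3⟩)
      · exact Or.inl (Or.inr ⟨b, ⟨a, h2, h3⟩, h4⟩)
      · exact Or.inr ⟨b, ⟨a, h2, h3⟩, h4⟩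

theorem nxv_succ (x : Input k) (i : ℕ) (u : Fin k) (v : Fin (k + 1)) :
    nxv x (i + 1) u v = (Bl x (2 ^ i) u).inf (fun w => nxv x i w v) := by
  unfold nxv
  rw [pow_succ, mul_two, Bl_add, Finset.inf_biUnion]

theorem Bl_mono_succ (x : Input k) (n : ℕ) (u : Fin k) : Bl x n u ⊆ Bl x (n + 1) u := by
  intro v hv
  change v ∈ Bl x n u ∪ _ ∪ _
  rw [mem_union, mem_union]
  exact Or.inl (Or.inl hv)

theorem Bl_mono (x : Input k) (u : Fin k) : Monotone (fun n => Bl x n u) :=
  monotone_nat_of_le_succ (fun n => Bl_mono_succ x n u)

theorem Bl_reach (x : Input k) (n : ℕ) (u v : Fin k) (h : v ∈ Bl x n u) : Reach x u v := by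
  induction n generalizing v with
  | zero =>
    simp only [Bl, mem_singleton] at h
    rw [h]
    exact Relation.ReflTransGen.refl
  | succ n ih =>
    simp only [Bl, mem_union, mem_image] at h
    rcases h with (h | ⟨w, h1, h2⟩) | ⟨w, h1, h2⟩
    · exact ih v h
    · exact (ih w h1).tail ⟨false, h2⟩
    · exact (ih w h1).tail ⟨true, h2⟩

theorem reach_Bl (x : Input k) (u v : Fin k) (h : Reach x u v) : ∃ n, v ∈ Bl x n u := by
  induction h with
  | refl => exact ⟨0, by simp [Bl]⟩
  | tail _ hbc ih =>
    obtain ⟨n, hn⟩ := ih
    obtain ⟨c, hc⟩ := hbc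
    refine ⟨n + 1, ?_⟩
    simp only [Bl, mem_union, mem_image]
    cases c with
    | false => exact Or.inl (Or.inr ⟨_, hn, hc⟩)
    | true => exact Or.inr ⟨_, hn, hc⟩

theorem Bl_stable (x : Input k) (u : Fin k) (n : ℕ) :
    n + 1 ≤ (Bl x n u).card ∨ Bl x (n + 1) u = Bl x n u := by
  induction n with
  | zero => left; simp [Bl]
  | succ n ih =>
    rcases ih with h | h
    · by_cases he : Bl x (n + 1) u = Bl x n u
      · right
        have h1 : Bl x (n + 1 + 1) u = Bl x (n + 1) u ∪ (Bl x (n + 1) u).image (fun w => x (w, false)) ∪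
          (Bl x (n + 1) u).image (fun w => x (w, true)) := rfl
        rw [h1, he]
        exact he
      · left
        have := Finset.card_lt_card (Finset.ssubset_iff_subset_ne.2
          ⟨Bl_mono_succ x n u, fun h' => he h'.symm⟩)
        omega
    · right
      have h1 : Bl x (n + 1 + 1) u = Bl x (n + 1) u ∪ (Bl x (n + 1) u).image (fun w => x (w, false)) ∪
        (Bl x (n + 1) u).image (fun w => x (w, true)) := rfl
      rw [h1, h]
      exact h

theorem Bl_k (x : Input k) (u : Fin k) (n : ℕ) : Bl x n u ⊆ Bl x k u := by
  have h1 : Bl x (k + 1) u = Bl x k u := by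
    rcases Bl_stable x u k with h | h
    · have := Finset.card_le_univ (Bl x k u)
      rw [Fintype.card_fin] at this
      omega
    · exact h
  have h2 : ∀ m, Bl x (k + m) u = Bl x k u := by
    intro m
    induction m with
    | zero => rfl
    | succ m ih =>
      have h3 : Bl x (k + (m + 1)) u = Bl x (k + m) u ∪
        (Bl x (k + m) u).image (fun w => x (w, false)) ∪
        (Bl x (k + m) u).image (fun w => x (w, true)) := rfl
      rw [h3, ih]
      exact h1
  rcases le_total n k with h | h
  · exact Bl_mono x u h
  · obtain ⟨m, rfl⟩ := Nat.exists_eq_add_of_le h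
    rw [h2]

/-- the program of level `0` -/
def base (u : Fin k) (v : Fin (k + 1)) : Prog k (Fin (k + 1)) where
  State := Unit ⊕ Fin k
  start := Sum.inl ()
  query σ := match σ with
    | Sum.inl _ => (u, false)
    | Sum.inr _ => (u, true)
  next σ c := match σ with
    | Sum.inl _ => Sum.inl (Sum.inr c)
    | Sum.inr c' => Sum.inr (fv v u ⊓ fv v c' ⊓ fv v c)

/-- the loop states -/
abbrev LA (k : ℕ) : Type := (Fin (k + 1) × Fin (k + 1)) ⊕ (Fin k × Fin (k + 1))

/-- the control of the loop -/
def kap (a : LA k) (o : Fin (k + 1)) : LA k ⊕ Fin (k + 1) :=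
  match a with
  | Sum.inl (_, best) => if h : o.val < k then Sum.inl (Sum.inr (⟨o.val, h⟩, best)) else Sum.inr best
  | Sum.inr (w, best) => Sum.inl (Sum.inl (w.succ, best ⊓ o))

theorem kap_lt {b best o : Fin (k + 1)} (h : o.val < k) :
    kap (Sum.inl (b, best)) o = Sum.inl (Sum.inr (⟨o.val, h⟩, best)) := by
  simp [kap, h]

theorem kap_ge {b best o : Fin (k + 1)} (h : ¬ o.val < k) :
    kap (Sum.inl (b, best)) o = Sum.inr best := by
  simp [kap, h]

/-- the sub-programs -/
def subp (f : Fin k → Fin (k + 1) → Prog k (Fin (k + 1))) (u : Fin k) (v : Fin (k + 1)) (a : LA k) :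
    Prog k (Fin (k + 1)) :=
  match a with
  | Sum.inl (b, _) => f u b
  | Sum.inr (w, _) => f w v

/-- the program of level `i` -/
def prg : ℕ → Fin k → Fin (k + 1) → Prog k (Fin (k + 1))
  | 0, u, v => base u v
  | i + 1, u, v => loop (subp (prg i) u v) kap (Sum.inl (0, ⊤))

theorem card_prg (i : ℕ) (u : Fin k) (v : Fin (k + 1)) :
    Fintype.card (prg i u v).State = (k + 1) * ((k + 1) * (2 * k + 1)) ^ i := by
  induction i generalizing u v with
  | zero =>
    change Fintype.card (Unit ⊕ Fin k) = _
    rw [Fintype.card_sum, Fintype.card_fin]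
    simp [add_comm]
  | succ i ih =>
    change Fintype.card (Σ a, (subp (prg i) u v a).State) = _
    rw [Fintype.card_sigma]
    have h1 : ∀ a : LA k, Fintype.card (subp (prg i) u v a).State =
        (k + 1) * ((k + 1) * (2 * k + 1)) ^ i := by
      intro a
      rcases a with ⟨b, best⟩ | ⟨w, best⟩
      · exact ih u b
      · exact ih w v
    rw [Finset.sum_congr rfl (fun a _ => h1 a), Finset.sum_const, Finset.card_univ,
      Fintype.card_sum, Fintype.card_prod, Fintype.card_prod, Fintype.card_fin, Fintype.card_fin,
      smul_eq_mul, pow_succ]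
    ring

theorem fv_le (v : Fin (k + 1)) (w : Fin k) : v ≤ fv v w := by
  unfold fv
  split_ifs with h
  · exact h
  · exact le_top

theorem ends_prg (x : Input k) (s : Fin k) (i : ℕ) :
    ∀ (u : Fin k) (v : Fin (k + 1)), Reach x s u →
      Ends (prg i u v) x {p | Reach x s p.1} (prg i u v).start (nxv x i u v) := by
  induction i with
  | zero =>
    intro u v hu
    change Ends (base u v) x {p | Reach x s p.1} (Sum.inl () : Unit ⊕ Fin k) (nxv x 0 u v)
    refine Ends.step (P := base u v) (σ' := (Sum.inr (x (u, false)) : Unit ⊕ Fin k)) hu rfl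
      (Ends.fin (P := base u v) hu ?_)
    change Sum.inr (fv v u ⊓ fv v (x (u, false)) ⊓ fv v (x (u, true))) = _
    congr 1
    unfold nxv
    simp [Bl, inf_assoc]
  | succ i ih =>
    intro u v hu
    set f := subp (prg i) u v with hf
    -- the loop
    have key : ∀ (n : ℕ) (b best : Fin (k + 1)), k - b.val ≤ n →
        best = ((Bl x (2 ^ i) u).filter (fun w => w.castSucc < b)).inf (fun w => nxv x i w v) →
        Ends (loop f kap (Sum.inl (0, ⊤))) x {p | Reach x s p.1}
          (⟨Sum.inl (b, best), (f (Sum.inl (b, best))).start⟩ : Σ a, (f a).State)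
          (nxv x (i + 1) u v) := by
      intro n
      induction n with
      | zero =>
        intro b best hn hbest
        have h1 := ih u b hu
        have hb : b = ⊤ := by
          apply Fin.ext
          have : b.val ≤ k := Nat.lt_succ_iff.1 b.isLt
          change b.val = k
          omega
        have h2 : nxv x i u b = ⊤ := by
          unfold nxv
          rw [hb]
          apply top_unique
          exact Finset.le_inf (fun w _ => fv_le ⊤ w)
        refine loop_fin f kap _ x _ h1 ?_
        rw [h2, kap_ge (by change ¬ k < k; omega), nxv_succ, hbest]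
        congr 2
        apply Finset.filter_true_of_mem
        intro w _
        rw [hb]
        exact Fin.castSucc_lt_last w
      | succ n ihn =>
        intro b best hn hbest
        have h1 := ih u b hu
        by_cases ho : (nxv x i u b).val < k
        · set w : Fin k := ⟨(nxv x i u b).val, ho⟩ with hw
          have hwc : w.castSucc = nxv x i u b := Fin.ext rfl
          have hbw : b ≤ w.castSucc := by
            rw [hwc]
            exact Finset.le_inf (fun w _ => fv_le b w)
          have hwmin : ∀ w' ∈ Bl x (2 ^ i) u, b ≤ w'.castSucc → w ≤ w' := by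
            intro w' hw' hb
            have h3 : nxv x i u b ≤ fv b w' := Finset.inf_le hw'
            unfold fv at h3
            rw [if_pos hb, ← hwc] at h3
            exact Fin.castSucc_le_castSucc_iff.1 h3
          have hwmem : w ∈ Bl x (2 ^ i) u := by
            have hne : (Bl x (2 ^ i) u).Nonempty :=
              ⟨u, Bl_mono x u (Nat.zero_le _) (by simp [Bl])⟩
            obtain ⟨w', hw', h3⟩ := Finset.exists_mem_eq_inf _ hne (fv b)
            have h4 : nxv x i u b = fv b w' := h3
            unfold fv at h4
            split_ifs at h4 with h5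
            · have h6 : w = w' := by
                apply Fin.castSucc_injective
                rw [hwc, h4]
              rw [h6]
              exact hw'
            · rw [h4] at ho
              exact absurd ho (lt_irrefl k)
          have hwr : Reach x s w := Relation.ReflTransGen.trans hu (Bl_reach x _ u w hwmem)
          have h2 := ih w v hwr
          refine loop_step f kap _ x _ (a' := Sum.inr (w, best)) h1 ?_ ?_
          · exact kap_lt ho
          · refine loop_step f kap _ x _ (a' := Sum.inl (w.succ, best ⊓ nxv x i w v)) h2 rfl ?_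
            apply ihn
            · have h3 : b.val ≤ w.val := hbw
              have h4 : w.succ.val = w.val + 1 := Fin.val_succ w
              have h5 := w.isLt
              omega
            · have h3 : (Bl x (2 ^ i) u).filter (fun w' => w'.castSucc < w.succ) =
                  insert w ((Bl x (2 ^ i) u).filter (fun w => w.castSucc < b)) := by
                ext w'
                rw [mem_insert, mem_filter, mem_filter]
                constructor
                · rintro ⟨h4, h5⟩
                  have h6 : w'.val < w.val + 1 := h5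
                  by_cases h7 : b ≤ w'.castSucc
                  · left
                    have h8 : w.val ≤ w'.val := hwmin w' h4 h7
                    exact Fin.ext (by omega)
                  · right
                    exact ⟨h4, not_le.1 h7⟩
                · rintro (h4 | ⟨h4, h5⟩)
                  · rw [h4]
                    exact ⟨hwmem, Fin.castSucc_lt_succ⟩
                  · refine ⟨h4, ?_⟩
                    exact h5.trans_le (hbw.trans (Fin.castSucc_lt_succ).le)
              rw [h3, Finset.inf_insert, ← hbest, inf_comm]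
        · refine loop_fin f kap _ x _ h1 ?_
          rw [kap_ge ho, nxv_succ, hbest]
          congr 2
          apply Finset.filter_true_of_mem
          intro w hw
          by_contra hcon
          apply ho
          have h3 : nxv x i u b ≤ fv b w := Finset.inf_le hw
          unfold fv at h3
          rw [if_pos (not_lt.1 hcon)] at h3
          have h4 : (nxv x i u b).val ≤ w.val := h3
          exact h4.trans_lt w.isLt
    exact key k 0 ⊤ (by simp) (by
      have : (Bl x (2 ^ i) u).filter (fun w => w.castSucc < (0 : Fin (k + 1))) = ∅ := by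
        apply Finset.filter_false_of_mem
        intro w _
        exact Fin.not_lt_zero _
      rw [this, Finset.inf_empty])

/-- the branching program -/
def toDBP (P : Prog k (Fin (k + 1))) (t : Fin k) : DBP (Fin k × Bool) k where
  State := P.State
  start := P.start
  query := P.query
  next σ c := match P.next σ c with
    | Sum.inl σ' => Sum.inl σ'
    | Sum.inr o => Sum.inr (decide (o = t.castSucc))

theorem path_of_ends (P : Prog k (Fin (k + 1))) (t : Fin k) (x : Input k) (R : Set (Fin k × Bool))
    (σ : P.State) (o : Fin (k + 1)) (h : Ends P x R σ o) :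
    ∃ l : List P.State, (toDBP P t).IsPath x σ l (decide (o = t.castSucc)) ∧
      ∀ q ∈ σ :: l, P.query q ∈ R := by
  induction h with
  | @fin σ o h1 h2 =>
    refine ⟨[], ?_, ?_⟩
    · change (match P.next σ (x (P.query σ)) with
        | Sum.inl σ' => Sum.inl σ'
        | Sum.inr o => Sum.inr (decide (o = t.castSucc))) = _
      simp only [h2]
      rfl
    · intro q hq
      rw [List.mem_singleton] at hq
      rw [hq]
      exact h1
  | @step σ σ' o h1 h2 _ ih =>
    obtain ⟨l, hl, hR⟩ := ih
    refine ⟨σ' :: l, ⟨?_, hl⟩, ?_⟩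
    · change (match P.next σ (x (P.query σ)) with
        | Sum.inl σ' => Sum.inl σ'
        | Sum.inr o => Sum.inr (decide (o = t.castSucc))) = _
      simp only [h2]
      rfl
    · intro q hq
      rw [List.mem_cons] at hq
      rcases hq with hq | hq
      · rw [hq]
        exact h1
      · exact hR q hq

theorem nxv_eq_iff (x : Input k) (s t : Fin k) (i : ℕ) :
    nxv x i s t.castSucc = t.castSucc ↔ t ∈ Bl x (2 ^ i) s := by
  constructor
  · intro h
    have hne : (Bl x (2 ^ i) s).Nonempty := ⟨s, Bl_mono x s (Nat.zero_le _) (by simp [Bl])⟩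
    obtain ⟨w', hw', h3⟩ := Finset.exists_mem_eq_inf _ hne (fv t.castSucc)
    have h4 : t.castSucc = fv t.castSucc w' := by
      rw [← h3]
      exact h.symm
    unfold fv at h4
    split_ifs at h4 with h5
    · rw [Fin.castSucc_injective _ h4]
      exact hw'
    · have h6 := t.isLt
      have h7 : t.val = k := congrArg Fin.val h4
      omega
  · intro h
    apply le_antisymm
    · have h3 : nxv x i s t.castSucc ≤ fv t.castSucc t := Finset.inf_le h
      unfold fv at h3
      rwa [if_pos le_rfl] at h3
    · exact Finset.le_inf (fun w _ => fv_le _ w)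

theorem main : SavProp := by
  classical
  intro k s t
  have hk : 1 ≤ k := by
    have := s.isLt
    omega
  refine ⟨toDBP (prg (Nat.log 2 k + 1) s t.castSucc) t, ?_, ?_⟩
  · change Fintype.card (prg (Nat.log 2 k + 1) s t.castSucc).State ≤ _
    rw [card_prg, pow_succ _ (Nat.log 2 k + 1), mul_comm (k + 1)]
    apply Nat.mul_le_mul
    · apply Nat.pow_le_pow_left
      nlinarith
    · nlinarith
  · intro x
    obtain ⟨l, hl, hR⟩ := path_of_ends (prg (Nat.log 2 k + 1) s t.castSucc) t x _ _ _
      (ends_prg x s (Nat.log 2 k + 1) s t.castSucc Relation.ReflTransGen.refl)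
    refine ⟨_, _, ?_, l, ?_, rfl, rfl⟩
    · -- number of variables
      have hsub : (((toDBP (prg (Nat.log 2 k + 1) s t.castSucc) t).start :: l).map
          (toDBP (prg (Nat.log 2 k + 1) s t.castSucc) t).query).toFinset ⊆
          (univ.filter (fun v => Reach x s v)) ×ˢ (univ : Finset Bool) := by
        intro p hp
        rw [List.mem_toFinset, List.mem_map] at hp
        obtain ⟨q, hq, rfl⟩ := hp
        rw [mem_product, mem_filter]
        exact ⟨⟨mem_univ _, hR q hq⟩, mem_univ _⟩
      refine (Finset.card_le_card hsub).trans ?_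
      rw [Finset.card_product, Finset.card_univ, Fintype.card_bool, mul_comm]
      apply Nat.mul_le_mul_left
      unfold nReach
      rw [← Set.ncard_coe_finset]
      apply le_of_eq
      congr 1
      ext v
      simp
    · have h1 : decide (nxv x (Nat.log 2 k + 1) s t.castSucc = t.castSucc) =
          decide (Reach x s t) := by
        apply decide_eq_decide.2
        rw [nxv_eq_iff]
        constructor
        · exact Bl_reach x _ s t
        · intro h
          obtain ⟨n, hn⟩ := reach_Bl x s t h
          exact Bl_mono x s (Nat.lt_pow_succ_log_self (by norm_num) k).le (Bl_k x s n hn)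
      rw [← h1]
      exact hl

end Pool.Agent.W565.ST.Sav
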