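import Mathlib
import Pool.Agent.W994.ST.Stm

/-!
# ST-ASYM: choice of the parameters
-/

set_option autoImplicit false

namespace Pool.Agent.W565.ST.Asym

open Finset
open Pool.Agent.W994.ST

theorem nd_pos (r d : ℕ) : 1 ≤ nd r d := by
  cases d with
  | zero => exact le_rfl
  | succ d =>
    change 1 ≤ 2 * (r + 1) * (2 * nd r d + 1)
    exact Nat.mul_pos (by omega) (by omega)

theorem nd_le (r d : ℕ) : nd r d ≤ (6 * (r + 1)) ^ d := by
  induction d with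
  | zero => exact le_rfl
  | succ d ih =>
    have h1 : nd r (d + 1) = 2 * (r + 1) * (2 * nd r d + 1) := rfl
    have h2 := nd_pos r d
    rw [h1, pow_succ]
    calc 2 * (r + 1) * (2 * nd r d + 1) ≤ 2 * (r + 1) * (3 * nd r d) :=
          Nat.mul_le_mul_left _ (by omega)
      _ = nd r d * (6 * (r + 1)) := by ring
      _ ≤ _ := Nat.mul_le_mul_right _ ih

theorem nn_le (r d : ℕ) : nn r d ≤ (6 * (r + 1)) ^ d := by
  induction d with
  | zero => exact Nat.zero_le _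
  | succ d ih =>
    have h1 : nn r (d + 1) = 4 * (r + 1) * nn r d + 1 := rfl
    have h2 : 1 ≤ (6 * (r + 1)) ^ d := Nat.one_le_pow _ _ (by omega)
    rw [h1, pow_succ]
    calc 4 * (r + 1) * nn r d + 1 ≤ 4 * (r + 1) * (6 * (r + 1)) ^ d + (6 * (r + 1)) ^ d :=
          Nat.add_le_add (Nat.mul_le_mul_left _ ih) h2
      _ = (6 * (r + 1)) ^ d * (4 * (r + 1) + 1) := by ring
      _ ≤ _ := Nat.mul_le_mul_left _ (by omega)

/-- the analytic part -/
theorem est {θ g ε c l b k n κ q N A S E : ℝ} (D R : ℕ) (hθ : θ - 1 = -4 * g) (hg0 : 0 < g)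
    (hε0 : 0 < ε) (hεg : ε ≤ g) (hε4 : ε ≤ 1 / 4) (hc0 : 0 < c) (hcε : c ≤ g * ε / 12)
    (hcg : c ≤ g) (hc2 : c ≤ 1 / 2) (hl96 : 96 ≤ l) (hcl : 2 ≤ c * l) (hgl : 1 ≤ g * l)
    (hk0 : 0 < k) (hkl : k = 2 ^ l) (hb1 : 1 ≤ b) (hbl2 : b ≤ l) (hql : l ≤ q)
    (hDu : ε * l / (3 * b) < D + 1) (hR : (R : ℝ) = 4 * q ^ 2)
    (hn1 : 1 ≤ n) (hnl : n ≤ 2 ^ (ε * l)) (_hN0 : 0 ≤ N) (hnnl : N ≤ 2 ^ (ε * l)) (hκ0 : 0 < κ)
    (hκl : k / 2 ≤ n * κ) (hA : A = n * k ^ θ / κ)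
    (hS1 : 1 ≤ S) (hE : E = c * l ^ 2 / b) (hSE : S < 2 ^ E) :
    N * (S + 1) / 2 ^ R + (S + 1) * A ^ (D + 1) + A ≤ 2 * k ^ (-c) := by
  have hl0 : 0 < l := by linarith
  have hb0 : 0 < b := by linarith
  have hkx : ∀ x : ℝ, k ^ x = 2 ^ (l * x) := by
    intro x
    rw [hkl, ← Real.rpow_mul (by norm_num)]
  have hA0 : 0 ≤ A := by rw [hA]; positivity
  have hAle : A ≤ 2 ^ (-(g * l)) := by
    have e1 : A ≤ 2 * n ^ 2 * k ^ (θ - 1) := by
      rw [hA, div_le_iff₀ hκ0, Real.rpow_sub_one hk0.ne']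
      have e2 : k ^ θ * 1 ≤ k ^ θ * (2 * (n * κ) / k) := by
        apply mul_le_mul_of_nonneg_left _ (by positivity)
        rw [le_div_iff₀ hk0]
        linarith
      calc n * k ^ θ = n * (k ^ θ * 1) := by ring
        _ ≤ n * (k ^ θ * (2 * (n * κ) / k)) :=
            mul_le_mul_of_nonneg_left e2 (by positivity)
        _ = _ := by ring
    have e2 : n ^ 2 ≤ 2 ^ (2 * (ε * l)) := by
      rw [mul_comm 2 (ε * l), Real.rpow_mul (by norm_num)]
      have : ((2 : ℝ) ^ (ε * l)) ^ (2 : ℝ) = ((2 : ℝ) ^ (ε * l)) ^ 2 := by norm_cast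
      rw [this]
      exact pow_le_pow_left₀ (by positivity) hnl 2
    have e5 : 1 + 2 * (ε * l) + l * (θ - 1) ≤ -(g * l) := by
      rw [hθ]
      have e4 : ε * l ≤ g * l := mul_le_mul_of_nonneg_right hεg hl0.le
      linarith
    have e6 : (2 : ℝ) * 2 ^ (2 * (ε * l)) * k ^ (θ - 1) = 2 ^ (1 + 2 * (ε * l) + l * (θ - 1)) := by
      rw [hkx, Real.rpow_add (by norm_num), Real.rpow_add (by norm_num), Real.rpow_one]
    calc A ≤ 2 * n ^ 2 * k ^ (θ - 1) := e1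
      _ ≤ 2 * 2 ^ (2 * (ε * l)) * k ^ (θ - 1) := by
          apply mul_le_mul_of_nonneg_right _ (by positivity)
          linarith
      _ = 2 ^ (1 + 2 * (ε * l) + l * (θ - 1)) := e6
      _ ≤ 2 ^ (-(g * l)) := Real.rpow_le_rpow_of_exponent_le (by norm_num) e5
  have hS2 : S + 1 ≤ 2 ^ (1 + E) := by
    rw [Real.rpow_add (by norm_num), Real.rpow_one]
    linarith
  have hlb : l ≤ l ^ 2 / b := by
    rw [le_div_iff₀ hb0, sq]
    exact mul_le_mul_of_nonneg_left hbl2 hl0.le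
  have hlb2 : l ^ 2 / b ≤ l ^ 2 := div_le_self (by positivity) hb1
  have hE2 : E = c * (l ^ 2 / b) := by rw [hE]; ring
  have t1 : N * (S + 1) / 2 ^ R ≤ 2 ^ (-1 + l * -c) := by
    rw [div_le_iff₀ (by positivity)]
    have e1 : (2 : ℝ) ^ R = 2 ^ (4 * q ^ 2) := by
      rw [← hR, Real.rpow_natCast]
    have e6 : ε * l + (1 + E) ≤ -1 + l * -c + 4 * q ^ 2 := by
      have e2 : l ^ 2 ≤ q ^ 2 := pow_le_pow_left₀ hl0.le hql 2
      have e3 : E ≤ 1 / 2 * l ^ 2 := by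
        rw [hE2]
        exact mul_le_mul hc2 hlb2 (by positivity) (by norm_num)
      have e4 : ε * l ≤ 1 / 4 * l := mul_le_mul_of_nonneg_right hε4 hl0.le
      have e5 : c * l ≤ 1 / 2 * l := mul_le_mul_of_nonneg_right hc2 hl0.le
      have e7 : 96 * l ≤ l ^ 2 := by
        rw [sq]
        exact mul_le_mul_of_nonneg_right hl96 hl0.le
      linarith
    rw [e1, ← Real.rpow_add (by norm_num)]
    calc N * (S + 1) ≤ 2 ^ (ε * l) * 2 ^ (1 + E) :=
          mul_le_mul hnnl hS2 (by positivity) (by positivity)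
      _ = 2 ^ (ε * l + (1 + E)) := by rw [← Real.rpow_add (by norm_num)]
      _ ≤ _ := Real.rpow_le_rpow_of_exponent_le (by norm_num) e6
  have t2 : (S + 1) * A ^ (D + 1) ≤ 2 ^ (-1 + l * -c) := by
    have e0 : -(g * l) * ((D : ℝ) + 1) ≤ -(g * l) * (ε * l / (3 * b)) := by
      have h1 : 0 ≤ g * l := by positivity
      have h2 := mul_le_mul_of_nonneg_left hDu.le h1
      linarith
    have e1 : A ^ (D + 1) ≤ 2 ^ (-(g * l) * (ε * l / (3 * b))) := by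
      calc A ^ (D + 1) ≤ ((2 : ℝ) ^ (-(g * l))) ^ (D + 1) := pow_le_pow_left₀ hA0 hAle _
        _ = 2 ^ (-(g * l) * ((D : ℝ) + 1)) := by
            rw [← Real.rpow_natCast, ← Real.rpow_mul (by norm_num)]
            push_cast
            rfl
        _ ≤ _ := Real.rpow_le_rpow_of_exponent_le (by norm_num) e0
    have e5 : 1 + E + -(g * l) * (ε * l / (3 * b)) ≤ -1 + l * -c := by
      have e2 : -(g * l) * (ε * l / (3 * b)) = -(g * ε / 3) * (l ^ 2 / b) := by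
        field_simp
      rw [e2, hE2]
      have e3 : (4 * c) * (l ^ 2 / b) ≤ (g * ε / 3) * (l ^ 2 / b) :=
        mul_le_mul_of_nonneg_right (by linarith) (by positivity)
      have e4 : c * l ≤ c * (l ^ 2 / b) := mul_le_mul_of_nonneg_left hlb hc0.le
      linarith
    calc (S + 1) * A ^ (D + 1) ≤ 2 ^ (1 + E) * 2 ^ (-(g * l) * (ε * l / (3 * b))) :=
          mul_le_mul hS2 e1 (by positivity) (by positivity)
      _ = 2 ^ (1 + E + -(g * l) * (ε * l / (3 * b))) := by rw [← Real.rpow_add (by norm_num)]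
      _ ≤ _ := Real.rpow_le_rpow_of_exponent_le (by norm_num) e5
  have t3 : A ≤ 2 ^ (l * -c) := by
    refine hAle.trans (Real.rpow_le_rpow_of_exponent_le (by norm_num) ?_)
    have := mul_le_mul_of_nonneg_right hcg hl0.le
    linarith
  have e1 : (2 : ℝ) ^ (-1 + l * -c) = 1 / 2 * 2 ^ (l * -c) := by
    rw [Real.rpow_add (by norm_num), Real.rpow_neg_one]
    norm_num
  rw [hkx (-c)]
  rw [e1] at t1 t2
  linarith

theorem pow4 {x : ℝ} (hx : 2 ≤ x) : (4 : ℝ) ≤ 2 ^ x := by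
  have h1 : (2 : ℝ) ^ (2 : ℝ) ≤ 2 ^ x := Real.rpow_le_rpow_of_exponent_le (by norm_num) hx
  have h2 : (2 : ℝ) ^ (2 : ℝ) = 4 := by norm_num
  linarith

theorem main : AsymProp := by
  intro θ δ hθ hδ
  obtain ⟨g, hg⟩ : ∃ g : ℝ, g = (1 - θ) / 4 := ⟨_, rfl⟩
  have hg0 : 0 < g := by rw [hg]; linarith
  obtain ⟨ε, hε0, hεδ, hεg, hε4⟩ : ∃ ε : ℝ, 0 < ε ∧ ε ≤ δ / 2 ∧ ε ≤ g ∧ ε ≤ 1 / 4 :=
    ⟨min (δ / 2) (min g (1 / 4)), lt_min (by linarith) (lt_min hg0 (by norm_num)),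
      min_le_left _ _, (min_le_right _ _).trans (min_le_left _ _),
      (min_le_right _ _).trans (min_le_right _ _)⟩
  obtain ⟨c, hc0, hcε, hcg, hc2⟩ : ∃ c : ℝ, 0 < c ∧ c ≤ g * ε / 12 ∧ c ≤ g ∧ c ≤ 1 / 2 :=
    ⟨min (g * ε / 12) (min g (1 / 2)), lt_min (by positivity) (lt_min hg0 (by norm_num)),
      min_le_left _ _, (min_le_right _ _).trans (min_le_left _ _),
      (min_le_right _ _).trans (min_le_right _ _)⟩
  obtain ⟨Λ, hΛ⟩ : ∃ Λ : ℝ, Λ = 96 + 2 / c + 4 / δ + 1 / g := ⟨_, rfl⟩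
  refine ⟨c, hc0, ⌈(2 : ℝ) ^ Λ⌉₊, fun k hk => ?_⟩
  have hkr : (2 : ℝ) ^ Λ ≤ k := (Nat.le_ceil _).trans (by exact_mod_cast hk)
  have hk0 : (0 : ℝ) < k := lt_of_lt_of_le (by positivity) hkr
  obtain ⟨l, hl⟩ : ∃ l : ℝ, l = Real.logb 2 k := ⟨_, rfl⟩
  have hΛl : Λ ≤ l := by
    rw [hl]
    exact (Real.le_logb_iff_rpow_le (by norm_num) hk0).2 hkr
  have hkl : (k : ℝ) = 2 ^ l := by
    rw [hl]
    exact (Real.rpow_logb (by norm_num) (by norm_num) hk0).symm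
  have p1 : 0 < 2 / c := by positivity
  have p2 : 0 < 4 / δ := by positivity
  have p3 : 0 < 1 / g := by positivity
  have hl96 : 96 ≤ l := by linarith
  have hl0 : 0 < l := by linarith
  have hcl : 2 ≤ c * l := by
    have : 2 / c ≤ l := by linarith
    rw [div_le_iff₀ hc0] at this
    linarith
  have hδl : 4 ≤ δ * l := by
    have : 4 / δ ≤ l := by linarith
    rw [div_le_iff₀ hδ] at this
    linarith
  have hgl : 1 ≤ g * l := by
    have : 1 / g ≤ l := by linarith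
    rw [div_le_iff₀ hg0] at this
    linarith
  have hkx : ∀ x : ℝ, (k : ℝ) ^ x = 2 ^ (l * x) := by
    intro x
    rw [hkl, ← Real.rpow_mul (by norm_num)]
  -- the iterated logarithm
  obtain ⟨b, hb⟩ : ∃ b : ℝ, b = Real.logb 2 l := ⟨_, rfl⟩
  have hbl : l = 2 ^ b := by
    rw [hb]
    exact (Real.rpow_logb (by norm_num) (by norm_num) hl0).symm
  have hb1 : 1 ≤ b := by
    rw [hb]
    refine (Real.le_logb_iff_rpow_le (by norm_num) hl0).2 ?_
    rw [Real.rpow_one]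
    linarith
  have hb0 : 0 < b := by linarith
  have hbl2 : b ≤ l := by
    rw [hb]
    refine (Real.logb_le_iff_le_rpow (by norm_num) hl0).2 ?_
    have := one_add_mul_self_le_rpow_one_add (s := 1) (by norm_num) (by linarith : 1 ≤ l)
    rw [one_add_one_eq_two] at this
    linarith
  -- parameters
  obtain ⟨q, hq⟩ : ∃ q : ℕ, q = ⌈l⌉₊ := ⟨_, rfl⟩
  have hql : l ≤ q := by rw [hq]; exact Nat.le_ceil l
  have hql2 : (q : ℝ) ≤ 2 * l := by
    have := Nat.ceil_lt_add_one hl0.le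
    rw [hq]
    linarith
  have hq1 : 1 ≤ q := by
    have : (0 : ℝ) < q := by linarith
    exact_mod_cast this
  obtain ⟨r, hr⟩ : ∃ r : ℕ, r + 1 = 4 * q ^ 2 := ⟨4 * q ^ 2 - 1, by
    have : 1 ≤ 4 * q ^ 2 := Nat.mul_pos (by norm_num) (pow_pos (by omega) 2)
    omega⟩
  obtain ⟨D, hD⟩ : ∃ D : ℕ, D = ⌊ε * l / (3 * b)⌋₊ := ⟨_, rfl⟩
  have hDl : (D : ℝ) ≤ ε * l / (3 * b) := by rw [hD]; exact Nat.floor_le (by positivity)
  have hDu : ε * l / (3 * b) < D + 1 := by rw [hD]; exact Nat.lt_floor_add_one _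
  have h6R : ((6 * (r + 1) : ℕ) : ℝ) ≤ 2 ^ (3 * b) := by
    rw [hr]
    push_cast
    have e1 : (2 : ℝ) ^ (3 * b) = l ^ 3 := by
      rw [mul_comm, Real.rpow_mul (by norm_num), ← hbl]
      norm_cast
    rw [e1]
    have e2 : (q : ℝ) ^ 2 ≤ (2 * l) ^ 2 := pow_le_pow_left₀ (by positivity) hql2 2
    have e3 : l ^ 3 = l * l ^ 2 := by ring
    have e4 : 96 * l ^ 2 ≤ l * l ^ 2 := mul_le_mul_of_nonneg_right hl96 (by positivity)
    rw [e3]
    linarith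
  have hpow : (((6 * (r + 1)) ^ D : ℕ) : ℝ) ≤ 2 ^ (ε * l) := by
    rw [Nat.cast_pow]
    calc ((6 * (r + 1) : ℕ) : ℝ) ^ D ≤ ((2 : ℝ) ^ (3 * b)) ^ D :=
          pow_le_pow_left₀ (by positivity) h6R D
      _ = 2 ^ (3 * b * D) := by
          rw [← Real.rpow_natCast, ← Real.rpow_mul (by norm_num)]
      _ ≤ 2 ^ (ε * l) := by
          apply Real.rpow_le_rpow_of_exponent_le (by norm_num)
          rw [le_div_iff₀ (by positivity)] at hDl
          linarith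
  have hn1 : 1 ≤ nd r D := nd_pos r D
  have hn1' : (1 : ℝ) ≤ nd r D := by exact_mod_cast hn1
  have hnl : (nd r D : ℝ) ≤ 2 ^ (ε * l) := le_trans (by exact_mod_cast nd_le r D) hpow
  have hnnl : (nn r D : ℝ) ≤ 2 ^ (ε * l) := le_trans (by exact_mod_cast nn_le r D) hpow
  -- n + 3 <= k / 2
  have hn4 : (nd r D : ℝ) + 3 ≤ 2 ^ (l / 4 + 1) := by
    have e1 : (2 : ℝ) ^ (ε * l) ≤ 2 ^ (l / 4) := by
      apply Real.rpow_le_rpow_of_exponent_le (by norm_num)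
      have := mul_le_mul_of_nonneg_right hε4 hl0.le
      linarith
    have e2 : (4 : ℝ) ≤ 2 ^ (l / 4) := pow4 (by linarith)
    rw [Real.rpow_add (by norm_num), Real.rpow_one]
    linarith
  have hnk : (nd r D : ℝ) + 3 ≤ k / 2 := by
    refine hn4.trans ?_
    rw [hkl]
    have e1 : (2 : ℝ) ^ (l / 4 + 1) ≤ 2 ^ (l - 1) :=
      Real.rpow_le_rpow_of_exponent_le (by norm_num) (by linarith)
    rw [Real.rpow_sub_one (by norm_num)] at e1
    exact e1
  have hkn : nd r D + 3 ≤ k := by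
    have : (nd r D : ℝ) + 3 ≤ k := by linarith
    exact_mod_cast this
  obtain ⟨κ, hκ⟩ : ∃ κ : ℕ, κ = (k - 3) / nd r D := ⟨_, rfl⟩
  have hκn : nd r D * κ + 3 ≤ k := by
    have := Nat.mul_div_le (k - 3) (nd r D)
    rw [← hκ] at this
    omega
  have hκ1 : 0 < κ := by
    rw [hκ]
    exact Nat.div_pos (by omega) hn1
  have hκl : (k : ℝ) / 2 ≤ nd r D * κ := by
    have h1 : k - 3 < nd r D * (κ + 1) := by
      rw [hκ]
      exact Nat.lt_mul_div_succ (k - 3) hn1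
    have h2 : k < nd r D * κ + nd r D + 3 := by
      have : nd r D * (κ + 1) = nd r D * κ + nd r D := by ring
      omega
    have h3 : (k : ℝ) < nd r D * κ + nd r D + 3 := by exact_mod_cast h2
    linarith
  have hκ0 : (0 : ℝ) < κ := by exact_mod_cast hκ1
  refine ⟨r, D, κ, hκ1, hκn, ?_, ?_⟩
  · -- n + 3 <= k ^ δ
    rw [hkx]
    have e1 : (4 : ℝ) ≤ 2 ^ (δ / 2 * l) := pow4 (by linarith)
    have e2 : (nd r D : ℝ) ≤ 2 ^ (δ / 2 * l) :=
      hnl.trans (Real.rpow_le_rpow_of_exponent_le (by norm_num)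
        (mul_le_mul_of_nonneg_right hεδ hl0.le))
    have e3 : (2 : ℝ) ^ (l * δ) = 2 ^ (δ / 2 * l) * 2 ^ (δ / 2 * l) := by
      rw [← Real.rpow_add (by norm_num)]
      congr 1
      ring
    rw [e3]
    have e4 := mul_le_mul_of_nonneg_right e1 (by positivity : (0 : ℝ) ≤ 2 ^ (δ / 2 * l))
    linarith
  · intro S hS hSl
    rw [← hl, ← hb] at hSl
    have hS0 : (0 : ℝ) < S := by exact_mod_cast hS
    have hS1 : (1 : ℝ) ≤ S := by exact_mod_cast hS
    have hSE : (S : ℝ) < 2 ^ (c * l ^ 2 / b) :=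
      (Real.logb_lt_iff_lt_rpow (by norm_num) hS0).1 hSl
    refine est D (r + 1) (by rw [hg]; ring) hg0 hε0 hεg hε4 hc0 hcε hcg hc2 hl96 hcl hgl hk0 hkl
      hb1 hbl2 hql hDu ?_ hn1' hnl (by positivity) hnnl hκ0 hκl rfl hS1 rfl hSE
    rw [hr]
    push_cast
    rfl

end Pool.Agent.W565.ST.Asym
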