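import Mathlib
import Pool.Agent.W994.ST.Stm

/-!
# ST-INST: properties of the hard graphs
-/

set_option autoImplicit false

namespace Pool.Agent.W565.ST.Inst

open Finset
open Pool.Agent.W994.ST

theorem card_Nd (r d : ℕ) : Fintype.card (Nd r d) = nd r d := by
  induction d with
  | zero => rfl
  | succ d ih =>
    have h1 : Fintype.card (Nd r (d + 1)) =
        Fintype.card ((Fin (r + 1) × Bool) × Option (Bool × Nd r d)) := rfl
    rw [h1, Fintype.card_prod, Fintype.card_prod, Fintype.card_option, Fintype.card_prod, ih,
      Fintype.card_fin, Fintype.card_bool]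
    change _ = 2 * (r + 1) * (2 * nd r d + 1)
    ring

section eval

variable {k κ r D : ℕ} {nm : Nd r D × Fin κ → Fin k} {s t dd : Fin k}

theorem wld_s {v : Fin k × Bool} (z : Bool) (h : Hb r D) (a : Nd r D → Fin κ) (hv : v.1 = s) :
    wld nm s t dd z h a v = nm (entry r D, a (entry r D)) := by
  unfold wld
  rw [if_pos hv]

theorem wld_nm (hinj : Function.Injective nm) (hs : ∀ v, nm v ≠ s) {v : Fin k × Bool} (z : Bool)
    (h : Hb r D) (a : Nd r D → Fin κ) {u : Nd r D} (hv : v.1 = nm (u, a u)) :
    wld nm s t dd z h a v =
      tg (fun u => nm (u, a u)) (if z then t else dd) dd (sc r D h u v.2) := by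
  unfold wld
  have h1 : v.1 ≠ s := by
    rw [hv]
    exact hs _
  have h2 : ∃ u, nm (u, a u) = v.1 := ⟨u, hv.symm⟩
  rw [if_neg h1, dif_pos h2]
  have h3 : h2.choose = u := by
    have := h2.choose_spec
    exact (Prod.ext_iff.1 (hinj (this.trans hv))).1
  rw [h3]

theorem wld_else {v : Fin k × Bool} (z : Bool) (h : Hb r D) (a : Nd r D → Fin κ) (hv : v.1 ≠ s)
    (hv2 : ∀ u, v.1 ≠ nm (u, a u)) : wld nm s t dd z h a v = dd := by
  unfold wld
  rw [if_neg hv, dif_neg]
  rintro ⟨u, hu⟩
  exact hv2 u hu.symm

end eval

/-- the exit of a gadget can be reached from its entry -/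
theorem reach_gadget {k r : ℕ} (x : Input k) : ∀ (d : ℕ) (h : Hb r d) (ι : Nd r d → Fin k)
    (ε δ : Fin k), (∀ u c, x (ι u, c) = tg ι ε δ (sc r d h u c)) → Reach x (ι (entry r d)) ε := by
  intro d
  induction d with
  | zero =>
    intro h ι ε δ hx
    exact Relation.ReflTransGen.single ⟨true, hx _ _⟩
  | succ d ih =>
    rintro ⟨ω, g⟩ ι ε δ hx
    have key : ∀ i : Fin (r + 1), Reach x (ι (pn d i (sd ω i)))
        (if h : i.val + 1 < r + 1 then ι (pn d ⟨i.val + 1, h⟩ (sd ω ⟨i.val + 1, h⟩)) else ε) := by
      intro i
      have h1 : x (ι (pn d i (sd ω i)), ω i) = ι (sb i (sd ω i) (ω i) (entry r d)) := hx _ _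
      have h2 := ih (g (i, sd ω i, ω i)) (fun u => ι (sb i (sd ω i) (ω i) u))
        (if h : i.val + 1 < r + 1 then ι (pn d ⟨i.val + 1, h⟩ (sd ω ⟨i.val + 1, h⟩)) else ε) δ (by
          intro u c
          rw [hx]
          have e1 : sc r (d + 1) (ω, g) (sb i (sd ω i) (ω i) u) c =
              (match sc r d (g (i, sd ω i, ω i)) u c with
              | Sum.inl u' => Sum.inl ((i, sd ω i), some (ω i, u'))
              | Sum.inr false => Sum.inr false
              | Sum.inr true =>
                match nx ω i (sd ω i) (ω i) with
                | Sum.inl p => Sum.inl (p, none)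
                | Sum.inr b => Sum.inr b) := rfl
          rw [e1]
          rcases hsc : sc r d (g (i, sd ω i, ω i)) u c with u' | b
          · rfl
          · cases b with
            | false => rfl
            | true =>
              by_cases hi : i.val + 1 < r + 1
              · have e2 : nx ω i (sd ω i) (ω i) = Sum.inl (⟨i.val + 1, hi⟩, ω i) := by
                  unfold nx
                  rw [dif_pos hi, if_pos rfl]
                have e3 : sd ω ⟨i.val + 1, hi⟩ = ω i := by
                  unfold sd
                  simp
                simp only [e2]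
                rw [dif_pos hi, e3]
                rfl
              · have e2 : nx ω i (sd ω i) (ω i) = Sum.inr true := by
                  unfold nx
                  rw [dif_neg hi, if_pos rfl]
                  simp
                simp only [e2]
                rw [dif_neg hi]
                rfl)
      exact Relation.ReflTransGen.head ⟨ω i, h1⟩ h2
    have hall : ∀ n (hn : n < r + 1), Reach x (ι (entry r (d + 1)))
        (ι (pn d ⟨n, hn⟩ (sd ω ⟨n, hn⟩))) := by
      intro n
      induction n with
      | zero =>
        intro hn
        exact Relation.ReflTransGen.refl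
      | succ n ihn =>
        intro hn
        have h1 := ihn (by omega)
        have h2 := key ⟨n, by omega⟩
        rw [dif_pos hn] at h2
        exact h1.trans h2
    have h1 := hall r (by omega)
    have h2 := key ⟨r, by omega⟩
    rw [dif_neg (by simp)] at h2
    exact h1.trans h2

theorem main : InstProp := by
  intro k κ r D nm s t dd hinj hs ht hd hst hsd htd
  refine ⟨?_, ?_, ?_, ?_, ?_, ?_⟩
  · intro z h a
    have hsub : {v | Reach (wld nm s t dd z h a) s v} ⊆
        ({s, t, dd} : Set (Fin k)) ∪ Set.range (fun u => nm (u, a u)) := by
      intro v hv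
      rcases Relation.ReflTransGen.cases_tail hv with hv | ⟨b, -, e, he⟩
      · left
        rw [hv]
        simp
      · by_cases hb : b = s
        · rw [wld_s z h a (v := (b, e)) hb] at he
          right
          exact ⟨_, he⟩
        · by_cases hb2 : ∃ u, b = nm (u, a u)
          · obtain ⟨u, hu⟩ := hb2
            rw [wld_nm hinj hs z h a (v := (b, e)) hu] at he
            rcases hsc : sc r D h u e with u' | bb
            · right
              refine ⟨u', ?_⟩
              rw [← he]
              simp only [hsc]
              rfl
            · left
              rw [← he]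
              simp only [hsc]
              cases bb with
              | false => change dd ∈ _; simp
              | true => change (if z then t else dd) ∈ _; cases z <;> simp
          · push Not at hb2
            rw [wld_else z h a (v := (b, e)) hb hb2] at he
            left
            rw [← he]
            simp
    unfold nReach
    refine (Set.ncard_le_ncard hsub (Set.toFinite _)).trans ((Set.ncard_union_le _ _).trans ?_)
    have h1 : ({s, t, dd} : Set (Fin k)).ncard ≤ 3 := by
      have := Finset.card_le_three (a := s) (b := t) (c := dd)
      rw [← Set.ncard_coe_finset] at this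
      simpa using this
    have h2 : (Set.range (fun u => nm (u, a u))).ncard ≤ nd r D := by
      rw [← Set.image_univ]
      refine (Set.ncard_image_le (Set.toFinite _)).trans ?_
      rw [Set.ncard_univ, Nat.card_eq_fintype_card, card_Nd]
    omega
  · intro h a
    have h1 := reach_gadget (wld nm s t dd true h a) D h (fun u => nm (u, a u)) t dd
      (fun u c => wld_nm hinj hs true h a (v := (nm (u, a u), c)) rfl)
    exact Relation.ReflTransGen.head ⟨true, wld_s true h a rfl⟩ h1
  · intro h a hr
    have hval : ∀ v, wld nm s t dd false h a v ≠ t := by
      intro v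
      by_cases hv : v.1 = s
      · rw [wld_s false h a hv]
        exact ht _
      · by_cases hv2 : ∃ u, v.1 = nm (u, a u)
        · obtain ⟨u, hu⟩ := hv2
          rw [wld_nm hinj hs false h a hu]
          rcases sc r D h u v.2 with u' | bb
          · exact ht _
          · cases bb with
            | false => exact htd.symm
            | true => exact htd.symm
        · push Not at hv2
          rw [wld_else false h a hv hv2]
          exact htd.symm
    rcases Relation.ReflTransGen.cases_tail hr with h1 | ⟨b, -, e, he⟩
    · exact hst h1.symm
    · exact hval _ he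
  · intro h a v hv
    by_cases hv1 : v.1 = s
    · rw [wld_s true h a hv1, wld_s false h a hv1]
    · by_cases hv2 : ∃ u, v.1 = nm (u, a u)
      · obtain ⟨u, hu⟩ := hv2
        rw [wld_nm hinj hs true h a hu, wld_nm hinj hs false h a hu]
        have := hv u v.2 (Prod.ext hu rfl)
        rcases hsc : sc r D h u v.2 with u' | bb
        · rfl
        · cases bb with
          | false => rfl
          | true => exact absurd hsc this
      · push Not at hv2
        rw [wld_else true h a hv1 hv2, wld_else false h a hv1 hv2]
  · intro z a
    refine ⟨?_, ?_, ?_, ?_, ?_, ?_⟩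
    · intro u u' h
      exact (Prod.ext_iff.1 (hinj h)).1
    · intro h u c
      exact wld_nm hinj hs z h a (v := (nm (u, a u), c)) rfl
    · intro h h' v hv
      by_cases hv1 : v.1 = s
      · rw [wld_s z h a hv1, wld_s z h' a hv1]
      · rw [wld_else z h a hv1 hv, wld_else z h' a hv1 hv]
    · intro h v u hv hu
      by_cases hv1 : v.1 = s
      · rw [wld_s z h a hv1] at hu
        exact (Prod.ext_iff.1 (hinj hu)).1.symm
      · rw [wld_else z h a hv1 hv] at hu
        exact absurd hu.symm (hd _)
    · intro u
      cases z with
      | false => exact hd _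
      | true => exact ht _
    · intro u
      exact hd _
  · intro z h a a' v h1 h2
    by_cases hv1 : v.1 = s
    · rw [wld_s z h a hv1] at h2 ⊢
      rw [wld_s z h a' hv1]
      by_cases he : a (entry r D) = a' (entry r D)
      · rw [he]
      · exact absurd rfl (h2 _ he)
    · by_cases hv2 : ∃ u, v.1 = nm (u, a u)
      · obtain ⟨u, hu⟩ := hv2
        have hau : a u = a' u := by
          by_contra hne
          exact (h1 u hne).1 hu
        have hu' : v.1 = nm (u, a' u) := by rw [hu, hau]
        rw [wld_nm hinj hs z h a hu] at h2 ⊢
        rw [wld_nm hinj hs z h a' hu']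
        rcases hsc : sc r D h u v.2 with u' | bb
        · rw [hsc] at h2
          change nm (u', a u') = nm (u', a' u')
          by_cases he : a u' = a' u'
          · rw [he]
          · exact absurd rfl (h2 u' he)
        · cases bb with
          | false => rfl
          | true => rfl
      · push Not at hv2
        rw [wld_else z h a hv1 hv2, wld_else z h a' hv1]
        intro u hu
        have hne : a u ≠ a' u := by
          intro he
          apply hv2 u
          rw [hu, he]
        exact (h1 u hne).2 hu

end Pool.Agent.W565.ST.Inst
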